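import Mathlib

open Filter Topology Set

namespace Pool.Agent.P.MP_9c76b4_al

/-- A directed family of subgroups of an abelian group is a basis at zero of a group topology. -/
theorem exists_top {A ι : Type} [AddCommGroup A] [Nonempty ι] (U : ι → AddSubgroup A)
    (hU : ∀ i j, ∃ k, U k ≤ U i ⊓ U j) :
    ∃ t : TopologicalSpace A, @IsTopologicalAddGroup A t _ ∧
      (@nhds A t 0).HasBasis (fun _ => True) (fun i => (U i : Set A)) := by
  let B : AddGroupFilterBasis A := addGroupFilterBasisOfComm (range fun i => (U i : Set A))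
    (range_nonempty _)
    (by
      rintro _ _ ⟨i, rfl⟩ ⟨j, rfl⟩
      obtain ⟨k, hk⟩ := hU i j
      exact ⟨U k, ⟨k, rfl⟩, fun x hx => hk hx⟩)
    (by rintro _ ⟨i, rfl⟩; exact (U i).zero_mem)
    (by
      rintro _ ⟨i, rfl⟩
      refine ⟨U i, ⟨i, rfl⟩, ?_⟩
      rintro _ ⟨x, hx, y, hy, rfl⟩
      exact (U i).add_mem hx hy)
    (by
      rintro _ ⟨i, rfl⟩
      exact ⟨U i, ⟨i, rfl⟩, fun x hx => (U i).neg_mem hx⟩)
  refine ⟨B.topology, B.isTopologicalAddGroup, ?_⟩
  have h := B.nhds_zero_hasBasis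
  constructor
  intro t
  rw [h.mem_iff]
  constructor
  · rintro ⟨_, ⟨i, rfl⟩, hi⟩
    exact ⟨i, trivial, hi⟩
  · rintro ⟨i, -, hi⟩
    exact ⟨U i, ⟨i, rfl⟩, hi⟩

abbrev G0 : Type := (ℕ × ℕ) →₀ ℤ
abbrev H0 : Type := ℕ →₀ ZMod 2

/-- Basic subgroups of `G0`. -/
def UG (a : ℕ × (ℕ → ℕ)) : AddSubgroup G0 where
  carrier := {x | ∀ p : ℕ × ℕ, ¬ (a.1 ≤ p.1 ∧ a.2 p.1 ≤ p.2) → x p = 0}
  zero_mem' := fun _ _ => rfl
  add_mem' := fun {x y} hx hy p hp => by simp [hx p hp, hy p hp]
  neg_mem' := fun {x} hx p hp => by simp [hx p hp]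

/-- Basic subgroups of `H0`. -/
def VH (n : ℕ) : AddSubgroup H0 where
  carrier := {h | ∀ k, k < n → h k = 0}
  zero_mem' := fun _ _ => rfl
  add_mem' := fun {x y} hx hy p hp => by simp [hx p hp, hy p hp]
  neg_mem' := fun {x} hx p hp => by simp [hx p hp]

noncomputable def f0 : G0 →+ H0 :=
  Finsupp.liftAddHom fun p => (Finsupp.singleAddHom p.1).comp (Int.castAddHom (ZMod 2))

theorem f0_single (p : ℕ × ℕ) (z : ℤ) :
    f0 (Finsupp.single p z) = Finsupp.single p.1 (z : ZMod 2) := by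
  simp [f0]

theorem f0_apply_eq_zero (x : G0) (n : ℕ) (h : ∀ m, x (n, m) = 0) : f0 x n = 0 := by
  have : f0 x = x.sum fun p z => Finsupp.single p.1 (z : ZMod 2) := by
    rw [f0, Finsupp.liftAddHom_apply]; rfl
  rw [this, Finsupp.sum, Finsupp.finsetSum_apply]
  refine Finset.sum_eq_zero fun p _ => ?_
  by_cases hp : p.1 = n
  · have : x p = 0 := by
      have := h p.2
      rwa [← hp] at this
    simp [this]
  · exact Finsupp.single_eq_of_ne (Ne.symm hp)

theorem map_UG (a : ℕ × (ℕ → ℕ)) (h : H0) (hh : h ∈ VH a.1) : ∃ x ∈ UG a, f0 x = h := by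
  refine ⟨h.sum fun k z => Finsupp.single (k, a.2 k) (z.val : ℤ), ?_, ?_⟩
  · refine (UG a).sum_mem fun k hk => ?_
    intro p hp
    refine Finsupp.single_eq_of_ne ?_
    rintro rfl
    apply hp
    refine ⟨?_, le_rfl⟩
    by_contra hlt
    exact (Finsupp.mem_support_iff.1 hk) (hh k (not_le.1 hlt))
  · rw [Finsupp.sum, map_sum]
    simp only [f0_single]
    conv_rhs => rw [← Finsupp.sum_single h]
    refine Finset.sum_congr rfl fun k _ => ?_
    simp

theorem UG_dir (i j : ℕ × (ℕ → ℕ)) : ∃ k, UG k ≤ UG i ⊓ UG j := by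
  refine ⟨(max i.1 j.1, fun n => max (i.2 n) (j.2 n)), fun x hx => ⟨?_, ?_⟩⟩
  · intro p hp
    refine hx p fun h => hp ⟨le_trans (le_max_left _ _) h.1, le_trans (le_max_left _ _) h.2⟩
  · intro p hp
    refine hx p fun h => hp ⟨le_trans (le_max_right _ _) h.1, le_trans (le_max_right _ _) h.2⟩

theorem VH_dir (i j : ℕ) : ∃ k, VH k ≤ VH i ⊓ VH j :=
  ⟨max i j, fun _ hx => ⟨fun k hk => hx k (lt_of_lt_of_le hk (le_max_left _ _)),
    fun k hk => hx k (lt_of_lt_of_le hk (le_max_right _ _))⟩⟩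

theorem add_version : ∃ (_ : TopologicalSpace G0) (_ : TopologicalSpace H0),
    IsTopologicalAddGroup G0 ∧ IsTopologicalAddGroup H0 ∧ T2Space G0 ∧ T2Space H0 ∧
    Continuous f0 ∧ IsOpenMap f0 ∧ Function.Surjective f0 ∧
    ∀ s : H0 → G0, (∀ h, f0 (s h) = h) → s 0 = 0 →
      ¬ ContinuousAt (fun p : H0 × H0 => s p.1 + s p.2 + -(s (p.1 + p.2))) (0, 0) := by
  obtain ⟨tG, hG, bG⟩ := exists_top UG UG_dir
  obtain ⟨tH, hH, bH⟩ := exists_top VH VH_dir
  refine ⟨tG, tH, hG, hH, ?_, ?_, ?_, ?_, ?_, ?_⟩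
  · refine IsTopologicalAddGroup.t2Space_of_zero_sep fun x hx => ?_
    obtain ⟨p, hp⟩ : ∃ p, x p ≠ 0 := by
      by_contra hc
      push Not at hc
      exact hx (Finsupp.ext hc)
    refine ⟨UG (p.1 + 1, fun _ => 0), bG.mem_of_mem trivial, fun h => hp (h p ?_)⟩
    simp
  · refine IsTopologicalAddGroup.t2Space_of_zero_sep fun x hx => ?_
    obtain ⟨p, hp⟩ : ∃ p, x p ≠ 0 := by
      by_contra hc
      push Not at hc
      exact hx (Finsupp.ext hc)
    exact ⟨VH (p + 1), bH.mem_of_mem trivial, fun h => hp (h p (Nat.lt_succ_self p))⟩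
  · refine continuous_of_continuousAt_zero f0 ?_
    rw [ContinuousAt, map_zero, bG.tendsto_iff bH]
    intro n _
    refine ⟨(n, fun _ => 0), trivial, fun x hx k hk => f0_apply_eq_zero x k fun m => hx _ ?_⟩
    simp only [zero_le, and_true, not_le]
    exact hk
  · rw [IsTopologicalAddGroup.isOpenMap_iff_nhds_zero]
    intro t ht
    rw [mem_map, bG.mem_iff] at ht
    obtain ⟨a, -, ha⟩ := ht
    refine mem_of_superset (bH.mem_of_mem (i := a.1) trivial) fun h hh => ?_
    obtain ⟨x, hx, rfl⟩ := map_UG a h hh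
    exact ha hx
  · intro h
    obtain ⟨x, -, hx⟩ := map_UG (0, fun _ => 0) h (fun k hk => absurd hk (Nat.not_lt_zero k))
    exact ⟨x, hx⟩
  · intro s hs h0 hc
    let e : ℕ → H0 := fun n => Finsupp.single n 1
    have he : Tendsto e atTop (𝓝 0) := by
      rw [bH.tendsto_right_iff]
      intro n _
      filter_upwards [eventually_ge_atTop n] with k hk j hj
      exact Finsupp.single_eq_of_ne (by omega)
    have hee : ∀ n, e n + e n = 0 := fun n => by
      simp only [e, ← Finsupp.single_add]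
      have : (1 : ZMod 2) + 1 = 0 := by decide
      simp [this]
    have h2 : Tendsto (fun n => s (e n) + s (e n)) atTop (𝓝 0) := by
      have := hc.tendsto.comp (he.prodMk_nhds he)
      simpa [Function.comp_def, hee, h0] using this
    have hm : ∀ n, ∃ m, s (e n) (n, m) ≠ 0 := fun n => by
      by_contra hcon
      push Not at hcon
      have := f0_apply_eq_zero _ n hcon
      rw [hs] at this
      simp [e] at this
    choose m hm using hm
    have := (bG.tendsto_right_iff.1 h2) (0, fun n => m n + 1) trivial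
    obtain ⟨n, hn⟩ := this.exists
    have h3 := hn (n, m n) (by simp)
    simp only [Finsupp.coe_add, Pi.add_apply] at h3
    exact hm n (by omega)

theorem main : ∃ (G H : Type) (_ : CommGroup G) (_ : CommGroup H)
    (_ : TopologicalSpace G) (_ : TopologicalSpace H),
    IsTopologicalGroup G ∧ IsTopologicalGroup H ∧ T2Space G ∧ T2Space H ∧
    ∃ f : G →* H, Continuous f ∧ IsOpenMap f ∧ Function.Surjective f ∧
      ∀ s : H → G, (∀ h, f (s h) = h) →
        ¬ (s 1 = 1 ∧
          ContinuousAt (fun p : H × H => s p.1 * s p.2 * (s (p.1 * p.2))⁻¹) (1, 1) ∧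
          ∀ y : H, ContinuousAt (fun h : H => s y * s h * (s y)⁻¹ * (s (y * h * y⁻¹))⁻¹) 1) := by
  obtain ⟨tG, tH, hG, hH, h2G, h2H, hc, ho, hs, hq⟩ := add_version
  refine ⟨Multiplicative G0, Multiplicative H0, inferInstance, inferInstance, inferInstance,
    inferInstance, inferInstance, inferInstance, h2G, h2H, AddMonoidHom.toMultiplicative f0,
    hc, ho, hs, ?_⟩
  rintro s hs ⟨h0, h1, -⟩
  exact hq (fun h => Multiplicative.toAdd (s (Multiplicative.ofAdd h))) hs h0 h1

end Pool.Agent.P.MP_9c76b4_al
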