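import Mathlib

/-! Sections continuous at the identity for open homomorphisms with complete feathered kernel. -/

namespace Pool.Agent.P.MP_9c76b4_al.Sec

open Set Filter Topology Pointwise

variable {G : Type*} [Group G] [TopologicalSpace G] [IsTopologicalGroup G]

/-- a shrinking sequence of closed symmetric neighbourhoods of the identity -/
structure Nest (V : ℕ → Set G) : Prop where
  mem : ∀ n, V n ∈ 𝓝 (1 : G)
  cl : ∀ n, IsClosed (V n)
  inv : ∀ n, ∀ x ∈ V n, x⁻¹ ∈ V n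
  mul : ∀ n, ∀ x ∈ V (n + 1), ∀ y ∈ V (n + 1), x * y ∈ V n

lemma exists_nest (O : ℕ → Set G) (hO : ∀ n, O n ∈ 𝓝 (1 : G)) :
    ∃ V, Nest V ∧ ∀ n, V n ⊆ O n := by
  choose! nx h1 h2 h3 h4 using fun (U : Set G) (hU : U ∈ 𝓝 (1 : G)) =>
    exists_closed_nhds_one_inv_eq_mul_subset hU
  have h5 : ∀ U ∈ 𝓝 (1 : G), nx U ⊆ U := fun U hU x hx =>
    h4 U hU ⟨x, hx, 1, mem_of_mem_nhds (h1 U hU), mul_one x⟩
  let W : ℕ → Set G := fun n => n.rec (O 0) fun k A => nx A ∩ O (k + 1)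
  have hW : ∀ n, W n ∈ 𝓝 (1 : G) := fun n => by
    induction n with
    | zero => exact hO 0
    | succ k ih => exact inter_mem (h1 _ ih) (hO _)
  refine ⟨fun n => nx (W n), ⟨fun n => h1 _ (hW n), fun n => h2 _ (hW n), fun n x hx => ?_,
    fun n x hx y hy => (h4 _ (hW (n + 1)) ⟨x, hx, y, hy, rfl⟩).1⟩, fun n => (h5 _ (hW n)).trans ?_⟩
  · rw [← h3 _ (hW n)]
    simpa using hx
  · cases n with
    | zero => exact subset_rfl
    | succ k => exact inter_subset_right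

variable {V : ℕ → Set G}

omit [IsTopologicalGroup G] in
lemma Nest.anti (hV : Nest V) : Antitone V := antitone_nat_of_succ_le fun n x hx => by
  simpa using hV.mul n x hx 1 (mem_of_mem_nhds (hV.mem _))

/-- the intersection of the sequence -/
def Nest.core (hV : Nest V) : Subgroup G where
  carrier := ⋂ n, V n
  mul_mem' ha hb := mem_iInter.2 fun n => hV.mul n _ (mem_iInter.1 ha _) _ (mem_iInter.1 hb _)
  one_mem' := mem_iInter.2 fun n => mem_of_mem_nhds (hV.mem n)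
  inv_mem' ha := mem_iInter.2 fun n => hV.inv n _ (mem_iInter.1 ha _)

omit [IsTopologicalGroup G] in
lemma Nest.mem_core (hV : Nest V) {x : G} : x ∈ hV.core ↔ ∀ n, x ∈ V n := mem_iInter

omit [IsTopologicalGroup G] in
lemma Nest.isClosed_core (hV : Nest V) : IsClosed (hV.core : Set G) := isClosed_iInter hV.cl

variable {α : Type*}

/-- `s` tends to the identity modulo `L` -/
def Md (F : Filter α) (L : Subgroup G) (s : α → G) : Prop :=
  ∀ U ∈ 𝓝 (1 : G), ∀ᶠ h in F, ∃ l ∈ L, l * s h ∈ U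

omit [Group G] [IsTopologicalGroup G] in
lemma clus {C : Set G} (hC : IsCompact C) {F : Filter G} [F.NeBot] (h : F ≤ 𝓝ˢ C) :
    ∃ c ∈ C, ClusterPt c F := by
  by_contra hn
  push Not at hn
  have := hC.disjoint_nhdsSet_left.2 fun x hx => clusterPt_iff_not_disjoint.not_left.1 (hn x hx)
  exact NeBot.ne ‹_› (this.eq_bot_of_ge h)

lemma isOpen_mod (L : Subgroup G) {U : Set G} (hU : IsOpen U) :
    IsOpen {x | ∃ l ∈ L, l * x ∈ U} := by
  have : {x | ∃ l ∈ L, l * x ∈ U} = ⋃ l ∈ L, (fun x => l * x) ⁻¹' U := by ext; simp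
  rw [this]
  exact isOpen_biUnion fun l _ => hU.preimage (by fun_prop)

lemma step {F : Filter α} {L : Subgroup G} {s : α → G} (hV : Nest V) {C : Set G}
    (hC : IsCompact C) (hCL : C ⊆ L) (hO : ∀ O ∈ 𝓝ˢ C, ∃ n, ∀ l ∈ L, l ∈ V n → l ∈ O)
    (ha : ∀ g, (∀ n, ∃ l ∈ L, l * g ∈ V n) → ∃ l ∈ L, ∀ n, l * g ∈ V n) (hP : Md F L s) :
    ∃ s' : α → G, (∀ h, s' h * (s h)⁻¹ ∈ L) ∧ Md F (L ⊓ hV.core) s' := by
  have hb : ∀ U ∈ 𝓝 (1 : G), ∃ n, ∀ k ∈ L, k ∈ V n → ∃ l ∈ L ⊓ hV.core, l * k ∈ U := by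
    intro U hU
    by_contra hn
    push Not at hn
    choose x h1 h2 h3 using hn
    have h4 : ∀ n, V n ∈ map x atTop := fun n =>
      (eventually_ge_atTop n).mono fun m hm => hV.anti hm (h2 m)
    obtain ⟨c, k1, k2⟩ := clus hC (F := map x atTop) fun O hO' => by
      obtain ⟨n, hn⟩ := hO O hO'
      exact (eventually_ge_atTop n).mono fun m hm => hn _ (h1 m) (hV.anti hm (h2 m))
    have k3 : c ∈ L ⊓ hV.core := ⟨hCL k1, hV.mem_core.2 fun n =>
      (hV.cl n).closure_subset (k2.mem_closure_of_mem _ (h4 n))⟩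
    obtain ⟨_, ⟨l, a1, a2⟩, m, rfl⟩ := clusterPt_iff_nonempty.1 k2
      ((isOpen_mod (L ⊓ hV.core) isOpen_interior).mem_nhds
        ⟨c⁻¹, inv_mem k3, by simpa using mem_interior_iff_mem_nhds.2 hU⟩) range_mem_map
    exact h3 m l a1 (interior_subset a2)
  have h1 : ∀ g : G, ∃ l ∈ L, ∀ n, (∃ l' ∈ L, l' * g ∈ V n) → l * g ∈ V n := by
    intro g
    classical
    by_cases h : ∀ n, ∃ l ∈ L, l * g ∈ V n
    · obtain ⟨l, a, b⟩ := ha g h
      exact ⟨l, a, fun n _ => b n⟩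
    · have h' := not_forall.1 h
      have hlt : ∀ n, (∃ l' ∈ L, l' * g ∈ V n) → n < Nat.find h' := fun n ⟨l, a, b⟩ =>
        not_le.1 fun e => Nat.find_spec h' ⟨l, a, hV.anti e b⟩
      rcases e : Nat.find h' with _ | m
      · exact ⟨1, one_mem _, fun n hn => absurd (hlt n hn) (by omega)⟩
      · obtain ⟨l, a, b⟩ := not_not.1 (Nat.find_min h' (m := m) (by omega))
        exact ⟨l, a, fun n hn => hV.anti (by have := hlt n hn; omega) b⟩
  choose l l1 l2 using h1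
  refine ⟨fun h => l (s h) * s h, fun h => by simpa using l1 _, fun U hU => ?_⟩
  obtain ⟨U', hU', hUU⟩ := exists_nhds_one_split hU
  obtain ⟨n, hn⟩ := hb U' hU'
  filter_upwards [hP _ (inter_mem hU' (hV.mem (n + 1)))] with h ⟨k, a1, a2, a3⟩
  obtain ⟨j, b1, b2⟩ := hn (l (s h) * k⁻¹) (mul_mem (l1 _) (inv_mem a1)) (by
    simpa [mul_assoc] using hV.mul n _ (l2 _ _ ⟨k, a1, a3⟩) _ (hV.inv _ _ a3))
  exact ⟨j, b1, by simpa [mul_assoc] using hUU _ b2 _ a2⟩

theorem of_compact {F : Filter α} {L : Subgroup G} (hL : IsCompact (L : Set G)) {s₀ : α → G}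
    (hP : Md F L s₀) : ∃ s : α → G, (∀ h, s h * (s₀ h)⁻¹ ∈ L) ∧ Tendsto s F (𝓝 1) := by
  let St := {p : Subgroup G × (α → G) // IsClosed (p.1 : Set G) ∧
    (∀ h, p.2 h * (s₀ h)⁻¹ ∈ L) ∧ Md F (L ⊓ p.1) p.2}
  let r : St → St → Prop := fun a b => b.1.1 ≤ a.1.1 ∧ ∀ h, b.1.2 h * (a.1.2 h)⁻¹ ∈ a.1.1
  have : Nonempty St := ⟨⟨(⊤, s₀), isClosed_univ, fun h => by simp, by simpa using hP⟩⟩
  obtain ⟨m, hm⟩ := exists_maximal_of_nonempty_chains_bounded (r := r) (fun c hc hne => by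
    have : Nonempty c := hne.to_subtype
    have hd : Directed r (fun a : c => a.1) := by
      intro a b
      by_cases e : a.1 = b.1
      · refine ⟨a, ⟨le_rfl, fun h => by simp⟩, ?_⟩
        change r b.1 a.1
        rw [e]
        exact ⟨le_rfl, fun h => by simp⟩
      · rcases hc a.2 b.2 e with h | h
        exacts [⟨b, h, le_rfl, fun h => by simp⟩, ⟨a, ⟨le_rfl, fun h => by simp⟩, h⟩]
    have h1 : ∀ h, ∃ l ∈ L, ∀ a : c, l * s₀ h * (a.1.1.2 h)⁻¹ ∈ a.1.1.1 := fun h => by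
      by_contra hn
      obtain ⟨a, ha⟩ := hL.elim_directed_family_closed
        (fun a : c => {l | l * s₀ h * (a.1.1.2 h)⁻¹ ∈ a.1.1.1})
        (fun a => a.1.2.1.preimage (f := fun l => l * s₀ h * (a.1.1.2 h)⁻¹) (by fun_prop))
        (eq_empty_of_forall_notMem fun l hl => hn ⟨l, hl.1, mem_iInter.1 hl.2⟩)
        (fun a b => by
          obtain ⟨d, k1, k2⟩ := hd a b
          exact ⟨d, fun l hl => by simpa [mul_assoc] using mul_mem (k1.1 hl) (k1.2 h),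
            fun l hl => by simpa [mul_assoc] using mul_mem (k2.1 hl) (k2.2 h)⟩)
      exact eq_empty_iff_forall_notMem.1 ha _ ⟨a.1.2.2.1 h, by simp⟩
    choose l l1 l2 using h1
    refine ⟨⟨(⨅ a : c, a.1.1.1, fun h => l h * s₀ h), ?_, fun h => by simpa using l1 h,
      fun U hU => ?_⟩, fun a ha => ⟨iInf_le (fun a : c => a.1.1.1) ⟨a, ha⟩, fun h => l2 h ⟨a, ha⟩⟩⟩
    · rw [Subgroup.coe_iInf]
      exact isClosed_iInter fun a => a.1.2.1
    obtain ⟨U', o1, o2, hUU⟩ := exists_open_nhds_one_split hU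
    obtain ⟨a, ha⟩ := (hL.diff (isOpen_mod (L ⊓ ⨅ a : c, a.1.1.1) o1)).elim_directed_family_closed
      (fun a : c => (a.1.1.1 : Set G)) (fun a => a.1.2.1)
      (eq_empty_of_forall_notMem fun x hx => hx.1.2
        ⟨x⁻¹, inv_mem ⟨hx.1.1, Subgroup.mem_iInf.2 (mem_iInter.1 hx.2)⟩, by simpa using o2⟩)
      (fun a b => let ⟨d, k1, k2⟩ := hd a b; ⟨d, k1.1, k2.1⟩)
    filter_upwards [a.1.2.2.2 U' (o1.mem_nhds o2)] with h ⟨k, a1, a2⟩
    have b1 : l h * s₀ h * (a.1.1.2 h)⁻¹ ∈ L := by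
      simpa [mul_assoc] using mul_mem (l1 h) (inv_mem (a.1.2.2.1 h))
    obtain ⟨j, b2, b3⟩ := not_not.1 fun e => eq_empty_iff_forall_notMem.1 ha
      (l h * s₀ h * (a.1.1.2 h)⁻¹ * k⁻¹)
      ⟨⟨mul_mem b1 (inv_mem a1.1), e⟩, mul_mem (l2 h a) (inv_mem a1.2)⟩
    exact ⟨j, b2, by simpa [mul_assoc] using hUU _ b3 _ a2⟩)
    (fun {a b c} h1 h2 => ⟨h2.1.trans h1.1, fun h => by
      simpa [mul_assoc] using mul_mem (h1.1 (h2.2 h)) (h1.2 h)⟩)
  have key : ∀ U ∈ 𝓝 (1 : G), ∀ x ∈ m.1.1, x ∈ U := fun U hU x hx => by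
    obtain ⟨V, hV, hVU⟩ := exists_nest (fun _ => U) fun _ => hU
    have hc : IsCompact ((L ⊓ m.1.1 : Subgroup G) : Set G) := hL.inter_right m.2.1
    obtain ⟨s', k1, k2⟩ := step (F := F) hV hc subset_rfl
      (fun O hO => ⟨0, fun l hl _ => subset_of_mem_nhdsSet hO hl⟩) (fun g hg => by
        by_contra hn
        obtain ⟨n, ha⟩ := hc.elim_directed_family_closed (fun n => {l | l * g ∈ V n})
          (fun n => (hV.cl n).preimage (f := fun l => l * g) (by fun_prop))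
          (eq_empty_of_forall_notMem fun l hl =>
            hn ⟨l, hl.1, (mem_iInter (s := fun n => {l | l * g ∈ V n})).1 hl.2⟩)
          (Antitone.directed_ge fun a b e l hl => hV.anti e hl)
        obtain ⟨l, a1, a2⟩ := hg n
        exact eq_empty_iff_forall_notMem.1 ha l ⟨a1, a2⟩) m.2.2.2
    have := hm ⟨(m.1.1 ⊓ hV.core, s'), m.2.1.inter hV.isClosed_core, fun h => by
      simpa [mul_assoc] using mul_mem (k1 h).1 (m.2.2.1 h), by rwa [← inf_assoc]⟩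
      ⟨inf_le_left, fun h => (k1 h).2⟩
    exact hVU 0 (hV.mem_core.1 (this.1 hx).2 0)
  refine ⟨m.1.2, m.2.2.1, fun U hU => ?_⟩
  obtain ⟨U', hU', hUU⟩ := exists_nhds_one_split hU
  refine mem_map.2 ?_
  filter_upwards [m.2.2.2 U' hU'] with h ⟨k, a1, a2⟩
  simpa using hUU _ (key U' hU' _ (inv_mem a1.2)) _ a2

theorem of_complete {F : Filter α} {L : Subgroup G} [hN : L.Normal]
    (hc : ∀ Φ : Filter L, Φ.NeBot →
      Tendsto (fun p : L × L => p.1⁻¹ * p.2) (Φ ×ˢ Φ) (𝓝 1) →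
      Tendsto (fun p : L × L => p.1 * p.2⁻¹) (Φ ×ˢ Φ) (𝓝 1) → ∃ k, Φ ≤ 𝓝 k)
    {C : Set L} (hC : IsCompact C) (h1 : 1 ∈ C) [(𝓝ˢ C).IsCountablyGenerated] {s₀ : α → G}
    (hP : Md F L s₀) : ∃ s : α → G, (∀ h, s h * (s₀ h)⁻¹ ∈ L) ∧ Tendsto s F (𝓝 1) := by
  obtain ⟨O, hO⟩ := (𝓝ˢ C).exists_antitone_basis
  choose O' o1 o2 using fun n => (mem_nhds_subtype _ _ _).1
    (nhds_le_nhdsSet h1 (hO.mem n))
  obtain ⟨V, hV, hVO⟩ := exists_nest O' o1
  have hO1 : ∀ W ∈ 𝓝ˢ C, ∃ n, ∀ l : L, l.1 ∈ V n → l ∈ W := fun W hW => by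
    obtain ⟨n, hn⟩ := hO.mem_iff.1 hW
    exact ⟨n, fun l hl => hn (o2 n (hVO n hl))⟩
  have hO2 : ∀ W ∈ 𝓝ˢ (Subtype.val '' C), ∃ n, ∀ l ∈ L, l ∈ V n → l ∈ W := fun W hW => by
    obtain ⟨n, hn⟩ := hO1 _ (continuous_subtype_val.tendsto_nhdsSet (mapsTo_image _ _) hW)
    exact ⟨n, fun l a b => hn ⟨l, a⟩ b⟩
  have hC' := hC.image continuous_subtype_val
  have hCL : Subtype.val '' C ⊆ (L : Set G) := by rintro _ ⟨x, -, rfl⟩; exact x.2
  obtain ⟨s', k1, k2⟩ := step (F := F) hV hC' hCL hO2 (fun g hg => by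
    choose l a1 a2 using hg
    let x : ℕ → L := fun n => ⟨l n, a1 n⟩
    let Φ := (hyperfilter ℕ).map x
    have hΦ : ∀ {p : L → Prop}, (∀ᶠ n in atTop, p (x n)) → {y | p y} ∈ Φ := fun h =>
      Nat.hyperfilter_le_atTop h
    have fin : ∀ (N : L → Set L), (∀ c, N c ∈ 𝓝 c) → ∀ φ : ℕ → L → L,
        (∀ n m, n + 1 ≤ m → (φ n (x m)).1 ∈ V n) → ∃ n c, {y | φ n y ∈ N c} ∈ Φ := by
      intro N hN φ hφ
      obtain ⟨T, -, hT⟩ := hC.elim_nhds_subcover_nhdsSet (U := N) fun c _ => hN c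
      obtain ⟨n, hn⟩ := hO1 _ hT
      have : ⋃ c ∈ (T : Set L), {y | φ n y ∈ N c} ∈ Φ :=
        mem_of_superset (hΦ (p := fun y => φ n y ∈ ⋃ c ∈ T, N c)
          ((eventually_ge_atTop (n + 1)).mono fun m hm => hn _ (hφ n m hm))) fun y hy => by
            simpa using hy
      obtain ⟨c, -, hc⟩ := (Ultrafilter.finite_biUnion_mem_iff T.finite_toSet).1 this
      exact ⟨n, c, hc⟩
    obtain ⟨k, hk⟩ := hc Φ inferInstance (fun U hU => by
      let ψ : L → L := fun u => ⟨g * u * g⁻¹, hN.conj_mem _ u.2 g⟩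
      have hψ : Continuous fun p : L × L => ψ (p.1⁻¹ * p.2) := by fun_prop
      obtain ⟨W, w1, w2, w3⟩ := exists_nhds_square (hψ.continuousAt.preimage_mem_nhds
        (x := (1, 1)) (t := U) (by
          have e : ψ ((1 : L)⁻¹ * 1) = 1 := Subtype.ext (by simp [ψ])
          exact e.symm ▸ hU))
      obtain ⟨n, c, h⟩ := fin (fun c => {y | c⁻¹ * y ∈ W})
        (fun c => (w1.preimage (by fun_prop)).mem_nhds (by simpa using w2))
        (fun n y => ⟨g⁻¹ * ((l (n + 1))⁻¹ * y) * g,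
          hN.conj_mem' _ (mul_mem (inv_mem (a1 _)) y.2) g⟩) fun n m hm => by
            simpa [mul_assoc] using hV.mul n _ (hV.inv _ _ (a2 (n + 1))) _ (hV.anti hm (a2 m))
      refine mem_map.2 (mem_of_superset (prod_mem_prod h h) fun p hp => ?_)
      have := w3 (mk_mem_prod hp.1 hp.2)
      simp only [mem_preimage, ψ] at this ⊢
      refine (congrArg (· ∈ U) (Subtype.ext ?_)).mp this
      simp [mul_assoc]) (fun U hU => by
      obtain ⟨W, w1, w2⟩ := exists_nhds_split_inv hU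
      obtain ⟨n, c, h⟩ := fin (fun c => {y | y * c⁻¹ ∈ W})
        (fun c => (show ContinuousAt (fun y : L => y * c⁻¹) c by fun_prop).preimage_mem_nhds
          (by simpa using w1))
        (fun n y => y * (x (n + 1))⁻¹) fun n m hm => by
          simpa [mul_assoc] using hV.mul n _ (hV.anti hm (a2 m)) _ (hV.inv _ _ (a2 (n + 1)))
      refine mem_map.2 (mem_of_superset (prod_mem_prod h h) fun p hp => ?_)
      simpa [div_eq_mul_inv, mul_assoc] using w2 _ hp.1 _ hp.2)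
    exact ⟨k, k.2, fun n => ((hV.cl n).preimage (f := fun y : L => y.1 * g)
      (by fun_prop)).mem_of_tendsto (tendsto_id'.2 hk)
        (hΦ ((eventually_ge_atTop n).mono fun m hm => hV.anti hm (a2 m)))⟩) hP
  obtain ⟨s, k3, k4⟩ := of_compact (L := L ⊓ hV.core) (fun Φ _ hΦ => by
    obtain ⟨c, a1, a2⟩ := clus hC' (F := Φ) fun W hW => by
      obtain ⟨n, hn⟩ := hO2 W hW
      exact mem_of_superset (le_principal_iff.1 hΦ) fun y hy => hn y hy.1 (hV.mem_core.1 hy.2 n)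
    exact ⟨c, ⟨hCL a1, hV.isClosed_core.closure_subset (a2.mem_closure_of_mem _
      (mem_of_superset (le_principal_iff.1 hΦ) fun y hy => hy.2))⟩, a2⟩) k2
  exact ⟨s, fun h => by simpa [mul_assoc] using mul_mem (k3 h).1 (k1 h), k4⟩

theorem main {H : Type*} [Group H] [TopologicalSpace H] (f : G →* H) (ho : IsOpenMap f)
    (hs : Function.Surjective f)
    (hc : ∀ Φ : Filter f.ker, Φ.NeBot →
      Tendsto (fun p : f.ker × f.ker => p.1⁻¹ * p.2) (Φ ×ˢ Φ) (𝓝 1) →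
      Tendsto (fun p : f.ker × f.ker => p.1 * p.2⁻¹) (Φ ×ˢ Φ) (𝓝 1) → ∃ k, Φ ≤ 𝓝 k)
    (hC : ∃ C : Set f.ker, IsCompact C ∧ 1 ∈ C ∧ (𝓝ˢ C).IsCountablyGenerated) :
    ∃ s : H → G, (∀ h, f (s h) = h) ∧ s 1 = 1 ∧ ContinuousAt s 1 := by
  obtain ⟨C, h1, h2, h3⟩ := hC
  choose s₀ h0 using hs
  obtain ⟨s, k1, k2⟩ := of_complete (F := 𝓝 (1 : H)) hc h1 h2 (s₀ := s₀) fun U hU => by
    filter_upwards [map_one f ▸ ho.image_mem_nhds hU] with h ⟨u, a1, a2⟩
    exact ⟨u * (s₀ h)⁻¹, by simp [MonoidHom.mem_ker, a2, h0], by simpa using a1⟩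
  classical
  refine ⟨Function.update s 1 1, fun h => ?_, Function.update_self .., ?_⟩
  · rcases eq_or_ne h 1 with rfl | e
    · simp
    · have := k1 h
      rw [MonoidHom.mem_ker, map_mul, map_inv, h0, mul_inv_eq_one] at this
      rwa [Function.update_of_ne e]
  · exact continuousAt_update_same.2 (k2.mono_left nhdsWithin_le_nhds)

theorem quasi {H : Type*} [Group H] [TopologicalSpace H] [IsTopologicalGroup H] {s : H → G}
    (hs : ContinuousAt s 1) :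
    ContinuousAt (fun p : H × H => s p.1 * s p.2 * (s (p.1 * p.2))⁻¹) (1, 1) ∧
      ∀ y : H, ContinuousAt (fun h : H => s y * s h * (s y)⁻¹ * (s (y * h * y⁻¹))⁻¹) 1 :=
  ⟨((hs.comp_of_eq continuousAt_fst rfl).mul (hs.comp_of_eq continuousAt_snd rfl)).mul
    (hs.comp_of_eq (f := fun p : H × H => p.1 * p.2) (by fun_prop) (by simp)).inv,
    fun y => ((continuousAt_const.mul hs).mul continuousAt_const).mul
      (hs.comp_of_eq (f := fun h : H => y * h * y⁻¹) (by fun_prop) (by simp)).inv⟩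

/-! Instances: locally compact kernels; first countable kernels are feathered. -/

variable {K : Type*} [Group K] [TopologicalSpace K] [IsTopologicalGroup K]

theorem lc_complete [WeaklyLocallyCompactSpace K] (Φ : Filter K) (_ : Φ.NeBot)
    (h : Tendsto (fun p : K × K => p.1⁻¹ * p.2) (Φ ×ˢ Φ) (𝓝 1)) : ∃ k, Φ ≤ 𝓝 k := by
  obtain ⟨C, hC, h1⟩ := exists_compact_mem_nhds (1 : K)
  obtain ⟨A, hA, hAA⟩ := mem_prod_self_iff.1 (h h1)
  obtain ⟨a, ha⟩ := Filter.nonempty_of_mem hA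
  obtain ⟨k, -, hk⟩ := (hC.image (f := fun x => a * x) (by fun_prop)) (f := Φ)
    (le_principal_iff.2 (mem_of_superset hA fun x hx =>
      ⟨a⁻¹ * x, hAA (mk_mem_prod ha hx), by simp⟩))
  refine ⟨k, fun U hU => ?_⟩
  obtain ⟨W, w1, w2⟩ := exists_nhds_one_split (s := (fun x => k * x) ⁻¹' U)
    ((show ContinuousAt (fun x => k * x) 1 by fun_prop).preimage_mem_nhds (by simpa using hU))
  obtain ⟨B, hB, hBB⟩ := mem_prod_self_iff.1 (h w1)
  obtain ⟨b, b1, b2⟩ := clusterPt_iff_nonempty.1 hk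
    ((show ContinuousAt (fun x => k⁻¹ * x) k by fun_prop).preimage_mem_nhds (t := W)
      (by simpa using w1)) hB
  exact mem_of_superset hB fun x hx => by
    simpa [mul_assoc] using w2 _ b1 _ (hBB (mk_mem_prod b2 hx))

theorem lc_feathered [WeaklyLocallyCompactSpace K] :
    ∃ C : Set K, IsCompact C ∧ 1 ∈ C ∧ (𝓝ˢ C).IsCountablyGenerated := by
  obtain ⟨C, hC, h1⟩ := exists_compact_mem_nhds (1 : K)
  obtain ⟨V, hV, hVC⟩ := exists_nest (fun _ => C) fun _ => h1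
  have hb : (𝓝ˢ (hV.core : Set K)).HasBasis (fun _ => True) V := ⟨fun O => ⟨fun hO => ?_, ?_⟩⟩
  · exact ⟨hV.core, hC.of_isClosed_subset hV.isClosed_core fun x hx =>
      hVC 0 (hV.mem_core.1 hx 0), one_mem _, ⟨hb, to_countable _⟩ |> HasCountableBasis.isCountablyGenerated⟩
  · obtain ⟨W, w1, w2, w3⟩ := mem_nhdsSet_iff_exists.1 hO
    obtain ⟨n, hn⟩ := (hC.diff w1).elim_directed_family_closed V hV.cl
      (eq_empty_of_forall_notMem fun x hx => hx.1.2 (w2 hx.2)) hV.anti.directed_ge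
    exact ⟨n, trivial, fun x hx => w3 (not_not.1 fun e =>
      eq_empty_iff_forall_notMem.1 hn x ⟨⟨hVC n hx, e⟩, hx⟩)⟩
  · rintro ⟨n, -, hn⟩
    refine mem_nhdsSet_iff_forall.2 fun x hx => mem_of_superset
      ((show ContinuousAt (fun y => x⁻¹ * y) x by fun_prop).preimage_mem_nhds (t := V (n + 1))
        (by simpa using hV.mem (n + 1))) fun y hy => hn ?_
    simpa using hV.mul n _ (hV.mem_core.1 hx (n + 1)) _ hy

omit [IsTopologicalGroup K] in
theorem fc_feathered [FirstCountableTopology K] :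
    ∃ C : Set K, IsCompact C ∧ 1 ∈ C ∧ (𝓝ˢ C).IsCountablyGenerated :=
  ⟨{1}, isCompact_singleton, rfl, by rw [nhdsSet_singleton]; infer_instance⟩

theorem lc_kernel {H : Type*} [Group H] [TopologicalSpace H] (f : G →* H) (ho : IsOpenMap f)
    (hs : Function.Surjective f) [WeaklyLocallyCompactSpace f.ker] :
    ∃ s : H → G, (∀ h, f (s h) = h) ∧ s 1 = 1 ∧ ContinuousAt s 1 :=
  main f ho hs (fun Φ h h1 _ => lc_complete Φ h h1) lc_feathered

end Pool.Agent.P.MP_9c76b4_al.Sec
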