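import Mathlib

/-! Targets all of whose open surjections have a quasihomomorphism section. -/

namespace Pool.Agent.P.MP_9c76b4_al.Targ

open Set Filter Topology Cardinal

universe u

lemma central {S : Type*} {w : FreeGroup S} (hw : w ≠ 1) (hc : ∀ x, x * w = w * x) :
    Subsingleton S := by
  classical
  obtain ⟨c, L, hL⟩ := List.exists_cons_of_ne_nil (FreeGroup.toWord_eq_nil_iff.not.2 hw)
  have key : ∀ a, a = c.1 := fun a => by
    by_contra ha
    have h1 : (FreeGroup.of a * w).toWord = (a, true) :: c :: L := by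
      rw [FreeGroup.toWord_mul, FreeGroup.toWord_of, List.singleton_append, FreeGroup.reduce.cons,
        FreeGroup.reduce_toWord, hL]
      simp [ha]
    have h2 := FreeGroup.toWord_mul_sublist w (FreeGroup.of a)
    rw [← hc, h1, hL, FreeGroup.toWord_of] at h2
    have h3 := h2.eq_of_length (by simp)
    exact ha (congrArg Prod.fst (List.cons.inj h3).1)
  exact ⟨fun a b => (key a).trans (key b).symm⟩

lemma cyc {S : Type u} {k : FreeGroup S} (hk : k ≠ 1) :
    ∃ c : FreeGroup S, ∀ x, x * k = k * x → x ∈ Subgroup.zpowers c := by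
  let Z := Subgroup.centralizer {k}
  have hZ : ∀ x, x * k = k * x → x ∈ Z := fun x hx => Subgroup.mem_centralizer_singleton_iff.2 hx
  let e := IsFreeGroup.toFreeGroup Z
  have h1 : e ⟨k, hZ k rfl⟩ ≠ 1 := fun h => hk (congrArg Subtype.val (e.map_eq_one_iff.1 h))
  have h2 := central h1 fun x => by
    obtain ⟨y, rfl⟩ := e.surjective x
    rw [← map_mul, ← map_mul]
    exact congrArg e (Subtype.ext (Subgroup.mem_centralizer_singleton_iff.1 y.2))
  have : IsCyclic (FreeGroup (IsFreeGroup.Generators Z)) := by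
    rcases isEmpty_or_nonempty (IsFreeGroup.Generators Z) with h | h
    · exact absurd (Subsingleton.elim _ _) h1
    · have := uniqueOfSubsingleton h.some
      infer_instance
  obtain ⟨c, hc⟩ := (isCyclic_of_surjective e.symm e.symm.surjective).exists_generator
  exact ⟨c, fun x hx => by
    obtain ⟨n, hn⟩ := hc ⟨x, hZ x hx⟩
    exact ⟨n, congrArg Subtype.val hn⟩⟩

variable {H : Type u} [Group H] {I : Type u}

open Classical in
/-- kill the letters indexed by `A` -/
noncomputable def kill (A : Set I) : FreeGroup (H × I) →* FreeGroup (H × I) :=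
  FreeGroup.lift fun p => if p.2 ∈ A then 1 else FreeGroup.of p

/-- the projection -/
def pr : FreeGroup (H × I) →* H := FreeGroup.lift Prod.fst

omit [Group H] in
lemma fix {L : Filter I} (hL : ∀ i, {i}ᶜ ∈ L) (w : FreeGroup (H × I)) :
    ∃ A ∈ L, ∀ B ⊆ A, kill B w = w := by
  induction w using FreeGroup.induction_on with
  | C1 => exact ⟨univ, univ_mem, fun B _ => map_one _⟩
  | of p => exact ⟨_, hL p.2, fun B hB => by simp [kill, show p.2 ∉ B from fun h => hB h rfl]⟩
  | inv_of p ih => exact ih.imp fun A h => ⟨h.1, fun B hB => by rw [map_inv, h.2 B hB]⟩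
  | mul x y a b =>
    obtain ⟨A, a1, a2⟩ := a
    obtain ⟨B, b1, b2⟩ := b
    exact ⟨_, inter_mem a1 b1, fun C hC => by
      rw [map_mul, a2 C (hC.trans inter_subset_left), b2 C (hC.trans inter_subset_right)]⟩

variable [TopologicalSpace H] [IsTopologicalGroup H]

lemma exists_top (L : Filter I) [L.NeBot] (hL : ∀ i, {i}ᶜ ∈ L) :
    ∃ _ : TopologicalSpace (FreeGroup (H × I)), IsTopologicalGroup (FreeGroup (H × I)) ∧
      T2Space (FreeGroup (H × I)) ∧ Continuous (pr (H := H) (I := I)) ∧
      IsOpenMap (pr (H := H) (I := I)) ∧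
      ∀ A ∈ L, ∀ᶠ x in 𝓝 (1 : FreeGroup (H × I)), kill A x = 1 := by
  obtain ⟨τ, hτ⟩ : ∃ τ : TopologicalSpace (FreeGroup (H × I)), τ =
    TopologicalSpace.induced pr inferInstance ⊓
      ⨅ A : L.sets, TopologicalSpace.induced (kill A.1) ⊥ := ⟨_, rfl⟩
  have h1 : IsTopologicalGroup (FreeGroup (H × I)) := hτ ▸ topologicalGroup_inf
    (topologicalGroup_induced pr) (topologicalGroup_iInf fun A => by
      let : TopologicalSpace (FreeGroup (H × I)) := ⊥
      have : DiscreteTopology (FreeGroup (H × I)) := ⟨rfl⟩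
      exact topologicalGroup_induced (kill A.1))
  have h2 : 𝓝 (1 : FreeGroup (H × I)) =
      comap pr (𝓝 1) ⊓ ⨅ A : L.sets, 𝓟 {x | kill A.1 x = 1} := by
    rw [hτ, @_root_.nhds_inf _ (TopologicalSpace.induced pr inferInstance)
      (⨅ A : L.sets, TopologicalSpace.induced (kill A.1) ⊥), @_root_.nhds_iInf _ _
      fun A : L.sets => TopologicalSpace.induced (kill A.1) ⊥, nhds_induced, map_one]
    refine congrArg _ (iInf_congr fun A => ?_)
    let : TopologicalSpace (FreeGroup (H × I)) := ⊥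
    have : DiscreteTopology (FreeGroup (H × I)) := ⟨rfl⟩
    rw [nhds_induced, nhds_discrete, comap_pure, map_one]
    rfl
  have h3 : ∀ A ∈ L, ∀ᶠ x in 𝓝 (1 : FreeGroup (H × I)), kill A x = 1 := fun A hA => by
    rw [h2]
    exact mem_inf_of_right (mem_iInf_of_mem ⟨A, hA⟩ (mem_principal_self _))
  refine ⟨τ, h1, IsTopologicalGroup.t2Space_of_one_sep fun w hw => ?_,
    continuous_le_dom (hτ.le.trans inf_le_left) continuous_induced_dom, ?_, h3⟩
  · obtain ⟨A, a1, a2⟩ := fix hL w
    exact ⟨_, h3 A a1, fun h => hw ((a2 A subset_rfl).symm.trans h)⟩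
  · have h4 : Tendsto FreeGroup.of (𝓝 (1 : H) ×ˢ L) (𝓝 (1 : FreeGroup (H × I))) := by
      rw [h2]
      refine tendsto_inf.2 ⟨tendsto_comap_iff.2 (tendsto_fst.congr fun p => by simp [pr]),
        tendsto_iInf.2 fun A => tendsto_principal.2 ?_⟩
      filter_upwards [tendsto_snd.eventually A.2] with p hp
      simp [kill, show p.2 ∈ A.1 from hp]
    refine IsTopologicalGroup.isOpenMap_iff_nhds_one.2 fun N hN => ?_
    filter_upwards [(h4.eventually hN).curry] with h hh
    obtain ⟨i, hi⟩ := hh.exists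
    simpa [pr] using hi

lemma alg {S : Type u} {π : FreeGroup S →* H} {t : H → FreeGroup S} (h0 : ∀ h, π (t h) = h)
    (h1 : t 1 = 1) (h2 : ∀ᶠ p : H × H in 𝓝 (1, 1), t p.1 * t p.2 = t (p.1 * p.2))
    (h3 : ∀ y, ∀ᶠ h in 𝓝 1, t y * t h * (t y)⁻¹ = t (y * h * y⁻¹)) :
    DiscreteTopology H ∨ IsFreeGroup H := by
  by_cases hm : ∀ a b, t (a * b) = t a * t b
  · let φ : H →* FreeGroup S := MonoidHom.mk' t hm
    exact Or.inr (IsFreeGroup.ofMulEquiv (MonoidHom.ofInjective (f := φ)
      (Function.LeftInverse.injective h0)).symm)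
  push Not at hm
  obtain ⟨a, b, hab⟩ := hm
  obtain ⟨c, hc⟩ := cyc (k := (t (a * b))⁻¹ * (t a * t b)) (inv_mul_eq_one.not.2 hab)
  obtain ⟨m, hm⟩ := hc _ rfl
  have m0 : m ≠ 0 := by
    rintro rfl
    exact hab (inv_mul_eq_one.1 (hm.symm.trans (zpow_zero c)))
  have m1 : π c ^ m = 1 := by simpa [h0] using congrArg π hm
  have h4 : ∀ n : ℕ, ∀ᶠ z in 𝓝 1, t (z ^ n) = t z ^ n := fun n => by
    induction n with
    | zero => simpa using h1
    | succ n ih =>
      have : Tendsto (fun z : H => (z ^ n, z)) (𝓝 1) (𝓝 (1, 1)) :=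
        Continuous.tendsto' (by fun_prop) _ _ (by simp)
      filter_upwards [ih, this.eventually h2] with z e1 e2
      rw [pow_succ, ← e2, e1, pow_succ]
  have h5 : Tendsto (fun z : H => b * z * b⁻¹) (𝓝 1) (𝓝 1) :=
    Continuous.tendsto' (by fun_prop) _ _ (by simp)
  refine Or.inl (discreteTopology_iff_singleton_mem_nhds.2 fun x => ?_)
  have : ∀ᶠ z in 𝓝 (1 : H), z = 1 := by
    filter_upwards [h4 m.natAbs, h3 b, h5.eventually (h3 a), h3 (a * b)] with z e1 e2 e3 e4
    obtain ⟨j, hj⟩ := hc (t z) (by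
      have : t (a * b) * t z * (t (a * b))⁻¹ = t a * (t b * t z * (t b)⁻¹) * (t a)⁻¹ := by
        rw [e2, e3, e4]
        simp [mul_assoc]
      calc _ = (t (a * b))⁻¹ * (t (a * b) * t z * (t (a * b))⁻¹) * (t a * t b) := by group
        _ = _ := by rw [this]; group)
    have z1 : z ^ m.natAbs = 1 := by
      rw [pow_natAbs_eq_one, ← h0 z, ← hj]
      simp only [map_zpow]
      rw [← zpow_mul, mul_comm, zpow_mul, m1, one_zpow]
    rw [z1, h1, eq_comm, pow_eq_one_iff_left (Int.natAbs_ne_zero.2 m0)] at e1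
    rw [← h0 z, e1, map_one]
  simpa using (show ContinuousAt (fun y => x⁻¹ * y) x by fun_prop).preimage_mem_nhds
    (t := {1}) (by rw [inv_mul_cancel]; exact this)

theorem forward (hall : ∀ (G : Type u) [Group G] [TopologicalSpace G] [IsTopologicalGroup G]
    [T2Space G] (f : G →* H), Continuous f → IsOpenMap f → Function.Surjective f →
      ∃ s : H → G, (∀ h, f (s h) = h) ∧ s 1 = 1 ∧
        ContinuousAt (fun p : H × H => s p.1 * s p.2 * (s (p.1 * p.2))⁻¹) (1, 1) ∧
        ∀ y : H, ContinuousAt (fun h : H => s y * s h * (s y)⁻¹ * (s (y * h * y⁻¹))⁻¹) 1) :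
    DiscreteTopology H ∨ IsFreeGroup H := by
  let c := Order.succ (max #H ℵ₀)
  have hreg : c.IsRegular := isRegular_succ (le_max_right _ _)
  let L := cocardinal c.out hreg
  have : L.NeBot := ⟨fun h => by simpa [L] using (empty_mem_iff_bot.2 h : ∅ ∈ L)⟩
  have hL : ∀ i, {i}ᶜ ∈ L := eventually_cocardinal_ne
  obtain ⟨τ, a1, a2, a3, a4, a5⟩ := exists_top (H := H) L hL
  obtain ⟨i⟩ := L.nonempty_of_neBot
  obtain ⟨s, b1, b2, b3, b4⟩ := hall _ pr a3 a4 fun h => ⟨FreeGroup.of (h, i), by simp [pr]⟩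
  choose A c1 c2 using fun h => fix hL (s h)
  have hB : ⋂ h, A h ∈ L :=
    (cardinal_iInter_mem (c := c) ((le_max_left _ _).trans_lt (Order.lt_succ _))).2 c1
  have c3 : ∀ h, kill (⋂ h, A h) (s h) = s h := fun h => c2 h _ (iInter_subset _ h)
  refine alg b1 b2 ?_ fun y => ?_
  · filter_upwards [(b3.tendsto.mono_right (by simp [b2])).eventually (a5 _ hB)] with p hp
    simpa [c3, mul_inv_eq_one] using hp
  · filter_upwards [((b4 y).tendsto.mono_right (by simp [b2])).eventually (a5 _ hB)] with p hp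
    simpa [c3, mul_inv_eq_one] using hp

omit [IsTopologicalGroup H] in
theorem backward (h : DiscreteTopology H ∨ IsFreeGroup H) (G : Type u) [Group G]
    [TopologicalSpace G] [IsTopologicalGroup G] (f : G →* H) (hs : Function.Surjective f) :
    ∃ s : H → G, (∀ h, f (s h) = h) ∧ s 1 = 1 ∧
      ContinuousAt (fun p : H × H => s p.1 * s p.2 * (s (p.1 * p.2))⁻¹) (1, 1) ∧
      ∀ y : H, ContinuousAt (fun h : H => s y * s h * (s y)⁻¹ * (s (y * h * y⁻¹))⁻¹) 1 := by
  choose s h0 using hs
  rcases h with h | h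
  · classical
    refine ⟨Function.update s 1 1, fun x => ?_, Function.update_self ..,
      continuous_of_discreteTopology.continuousAt,
      fun y => continuous_of_discreteTopology.continuousAt⟩
    rcases eq_or_ne x 1 with rfl | e
    · simp
    · rw [Function.update_of_ne e, h0]
  · let φ : H →* G := IsFreeGroup.lift fun a => s (IsFreeGroup.of a)
    have : f.comp φ = MonoidHom.id H := IsFreeGroup.ext_hom fun a => by simp [φ, h0]
    exact ⟨φ, DFunLike.congr_fun this, map_one φ, by simpa [mul_assoc] using continuousAt_const,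
      fun y => by simpa [mul_assoc] using continuousAt_const⟩

/-- an instance: the Cantor group is neither discrete nor free -/
theorem cantor : ¬ (DiscreteTopology (ℕ → Multiplicative (ZMod 2)) ∨
    IsFreeGroup (ℕ → Multiplicative (ZMod 2))) := by
  rintro (h | h)
  · exact not_finite_iff_infinite.2 inferInstance
      (finite_of_compact_of_discrete (X := ℕ → Multiplicative (ZMod 2)))
  · let e := IsFreeGroup.toFreeGroup (ℕ → Multiplicative (ZMod 2))
    have h1 : e (fun _ => Multiplicative.ofAdd 1) ^ 2 = 1 := by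
      rw [← map_pow, e.map_eq_one_iff]
      exact funext fun _ => (by decide : (Multiplicative.ofAdd (1 : ZMod 2)) ^ 2 = 1)
    rw [pow_eq_one_iff_left two_ne_zero, e.map_eq_one_iff] at h1
    exact (by decide : Multiplicative.ofAdd (1 : ZMod 2) ≠ 1) (congrFun h1 0)

end Pool.Agent.P.MP_9c76b4_al.Targ
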